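import Pool.Agent.Run7.h608.BC.Iface

/-! Project BC, piece DIV. -/

set_option autoImplicit false

open MeasureTheory Set Filter Topology
open scoped ENNReal ContDiff

namespace Run7.h688.BC

open Run7.h608.BC

theorem t_DIV : S_DIV := by
  intro H g hH hg hz
  refine ⟨fun ξ => g ξ * (H ξ)⁻¹, ⟨?_, ?_⟩, ?_⟩
  · rw [contDiff_iff_contDiffAt]
    intro ξ
    by_cases h0 : H ξ = 0
    · have h1 : (fun η => g η * (H η)⁻¹) =ᶠ[𝓝 ξ] fun _ => (0 : ℂ) := by
        filter_upwards [hz ξ h0] with η hη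
        rw [hη, zero_mul]
      exact contDiffAt_const.congr_of_eventuallyEq h1
    · exact hg.1.contDiffAt.mul (hH.contDiffAt.inv h0)
  · exact hg.2.mul_right
  · intro ξ
    by_cases h0 : H ξ = 0
    · have h2 : g ξ = 0 := (hz ξ h0).self_of_nhds
      rw [h2, h0, mul_zero]
    · show g ξ = g ξ * (H ξ)⁻¹ * H ξ
      rw [mul_assoc, inv_mul_cancel₀ h0, mul_one]

end Run7.h688.BC
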