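import Pool.Agent.Run7.h608.BC.Iface

/-! Project BC, piece GEN. -/

set_option autoImplicit false

open MeasureTheory Set Filter Topology
open scoped ENNReal ContDiff

namespace Run7.h688.BC

open Run7.h608.BC

theorem e_add (a b : ℝ) : e (a + b) = e a * e b := by
  unfold e
  rw [← Complex.exp_add]
  congr 1
  push_cast
  ring

theorem e_cont : Continuous e := by
  unfold e
  fun_prop

theorem m_cont : Continuous m := by
  unfold m
  have h : Continuous fun ξ : ℝ => e (-ξ) := e_cont.comp continuous_neg
  exact (continuous_const.add h).div_const 2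

theorem mk_cont (β : ℝ) (k : ℕ) : Continuous (mk β k) := by
  unfold h608.BC.mk
  refine continuous_finsetProd _ fun j _ => ?_
  exact m_cont.comp (continuous_const.mul continuous_id)

theorem integ (β : ℝ) (g : ℝ → ℂ) (hg : Tst g) (k : ℕ) (s : ℝ) :
    Integrable fun ξ : ℝ => g ξ * mk β k ξ * e (ξ * (β ^ k * s)) := by
  have hc : Continuous fun ξ : ℝ => g ξ * mk β k ξ * e (ξ * (β ^ k * s)) :=
    (hg.1.continuous.mul (mk_cont β k)).mul (e_cont.comp (continuous_id.mul continuous_const))
  refine hc.integrable_of_hasCompactSupport ?_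
  exact (hg.2.mul_right).mul_right

theorem t_GEN : S_GEN := by
  intro β hβ g hg k
  induction k with
  | zero =>
    intro t
    simp only [Function.iterate_zero, id, pow_zero, h608.BC.mk, Finset.range_zero, Finset.prod_empty,
      mul_one, one_mul, Complex.ofReal_one]
    rfl
  | succ k ih =>
    intro t
    rw [Function.iterate_succ_apply']
    unfold P at ih ⊢
    rw [ih (β * t), ih (β * t - 1), ← mul_add, ← integral_add (integ β g hg k _) (integ β g hg k _)]
    have h1 : (fun ξ : ℝ => g ξ * mk β k ξ * e (ξ * (β ^ k * (β * t))) +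
        g ξ * mk β k ξ * e (ξ * (β ^ k * (β * t - 1)))) =
        fun ξ : ℝ => 2 * (g ξ * mk β (k + 1) ξ * e (ξ * (β ^ (k + 1) * t))) := by
      funext ξ
      have h2 : ξ * (β ^ k * (β * t - 1)) = ξ * (β ^ (k + 1) * t) + -(β ^ k * ξ) := by ring
      have h3 : ξ * (β ^ k * (β * t)) = ξ * (β ^ (k + 1) * t) := by ring
      have h4 : mk β (k + 1) ξ = mk β k ξ * m (β ^ k * ξ) := by
        unfold h608.BC.mk
        rw [Finset.prod_range_succ]
      rw [h2, h3, h4, e_add, m]
      ring
    rw [h1, integral_const_mul]
    push_cast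
    ring

end Run7.h688.BC
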